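import Mathlib
import Pool.Agent.Helper17.RS.Sheet

/-! Rows INJK and BNDK. -/

set_option autoImplicit false

namespace Pool.Helper17.RS

theorem h72_MM_dvd : (13 : ℤ) ∣ MM := by
  unfold MM
  have h : 13 ∣ Nat.factorial 1000 := Nat.dvd_factorial (by norm_num) (by norm_num)
  exact_mod_cast h

theorem h72_MM_le : (8 : ℤ) ≤ MM := by
  unfold MM
  have h := Nat.self_le_factorial 1000
  have h2 : 8 ≤ Nat.factorial 1000 := le_trans (by norm_num) h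
  exact_mod_cast h2

theorem h72_cast {a b : ℤ} (h : MM ∣ a - b) : (a : ZMod 13) = (b : ZMod 13) := by
  have h1 : (13 : ℤ) ∣ a - b := h72_MM_dvd.trans h
  have h2 := (ZMod.intCast_zmod_eq_zero_iff_dvd (a - b) 13).2 (by exact_mod_cast h1)
  push_cast at h2
  exact sub_eq_zero.1 h2

/-- INJK -/
theorem st_INJK : ST_INJK := by
  intro y y' h h' hp hp' hw hA hB
  have c0 := h72_cast (h 0)
  have c1 := h72_cast (h 1)
  have c2 := h72_cast (h 2)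
  have d0 := h72_cast (h' 0)
  have d1 := h72_cast (h' 1)
  have p0 := hp 0
  have p1 := hp 1
  have q0 := hp' 0
  have q1 := hp' 1
  simp only [kb, Matrix.cons_val_zero, Matrix.cons_val_one, Matrix.cons_val] at c0 c1 c2 d0 d1
  unfold kAy kA at hA
  unfold kBy kB at hB
  rw [← hw] at hA hB
  obtain ⟨u, hu⟩ : ∃ u, u = y 0 := ⟨_, rfl⟩
  obtain ⟨v, hv⟩ : ∃ v, v = y 1 := ⟨_, rfl⟩
  obtain ⟨w, hw'⟩ : ∃ w, w = y 2 := ⟨_, rfl⟩
  obtain ⟨u', hu'⟩ : ∃ u', u' = y' 0 := ⟨_, rfl⟩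
  obtain ⟨v', hv'⟩ : ∃ v', v' = y' 1 := ⟨_, rfl⟩
  rw [← hu, ← hv, ← hw', ← hu', ← hv'] at hA hB
  rw [← hu] at c0 p0
  rw [← hv] at c1 p1
  rw [← hw'] at c2
  rw [← hu'] at d0 q0
  rw [← hv'] at d1 q1
  obtain ⟨α₁, ha1⟩ : ∃ α, α = -3 * (u ^ 2 + u' ^ 2) + 6 * v ^ 2 - 22122 * w ^ 2 := ⟨_, rfl⟩
  obtain ⟨α₂, ha2⟩ : ∃ α, α = 6 * u' ^ 2 - 3 * (v ^ 2 + v' ^ 2) + 1062 * w ^ 2 := ⟨_, rfl⟩
  obtain ⟨β₁, hb1⟩ : ∃ β, β = -2 * (u ^ 4 + u ^ 2 * u' ^ 2 + u' ^ 4) +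
      6 * (u ^ 2 + u' ^ 2) * v ^ 2 + 41382 * (u ^ 2 + u' ^ 2) * w ^ 2 - 6 * v ^ 4 +
      6012 * v ^ 2 * w ^ 2 + 6706746 * w ^ 4 := ⟨_, rfl⟩
  obtain ⟨β₂, hb2⟩ : ∃ β, β = 6 * u' ^ 4 - 6 * u' ^ 2 * (v ^ 2 + v' ^ 2) +
      6012 * u' ^ 2 * w ^ 2 + 2 * (v ^ 4 + v ^ 2 * v' ^ 2 + v' ^ 4) -
      738 * (v ^ 2 + v' ^ 2) * w ^ 2 - 9666 * w ^ 4 := ⟨_, rfl⟩
  have e1 : (u ^ 2 - u' ^ 2) * α₁ + (v ^ 2 - v' ^ 2) * α₂ = 0 := by
    rw [ha1, ha2]
    linear_combination hA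
  have e2 : (u ^ 2 - u' ^ 2) * β₁ + (v ^ 2 - v' ^ 2) * β₂ = 0 := by
    rw [hb1, hb2]
    linear_combination hB
  have hd : α₁ * β₂ - α₂ * β₁ ≠ 0 := by
    intro h0
    have h1 : ((α₁ * β₂ - α₂ * β₁ : ℤ) : ZMod 13) = 0 := by rw [h0, Int.cast_zero]
    rw [ha1, ha2, hb1, hb2] at h1
    push_cast at h1
    rw [c0, c1, c2, d0, d1] at h1
    revert h1
    decide
  have e3 : (u ^ 2 - u' ^ 2) * (α₁ * β₂ - α₂ * β₁) = 0 := by
    linear_combination β₂ * e1 - α₂ * e2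
  have e4 : (v ^ 2 - v' ^ 2) * (α₁ * β₂ - α₂ * β₁) = 0 := by
    linear_combination α₁ * e2 - β₁ * e1
  have f1 : u ^ 2 = u' ^ 2 := by
    rcases mul_eq_zero.1 e3 with h1 | h1
    · linarith
    · exact absurd h1 hd
  have f2 : v ^ 2 = v' ^ 2 := by
    rcases mul_eq_zero.1 e4 with h1 | h1
    · linarith
    · exact absurd h1 hd
  have g1 : u = u' := (pow_left_inj₀ p0.le q0.le (by norm_num)).1 f1
  have g2 : v = v' := (pow_left_inj₀ p1.le q1.le (by norm_num)).1 f2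
  funext i
  fin_cases i
  · exact hu.symm.trans (g1.trans hu')
  · exact hv.symm.trans (g2.trans hv')
  · exact hw

theorem h72_mono {Z a b c : ℤ} (ha : 0 < a ∧ a ≤ Z) (hb : 0 < b ∧ b ≤ Z) (hc : 0 < c ∧ c ≤ Z)
    (i j k : ℕ) : 0 ≤ a ^ i * b ^ j * c ^ k ∧ a ^ i * b ^ j * c ^ k ≤ Z ^ (i + j + k) := by
  have hZ : 0 < Z := ha.1.trans_le ha.2
  constructor
  · exact mul_nonneg (mul_nonneg (pow_nonneg ha.1.le _) (pow_nonneg hb.1.le _))
      (pow_nonneg hc.1.le _)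
  · rw [pow_add, pow_add]
    exact mul_le_mul (mul_le_mul (pow_le_pow_left₀ ha.1.le ha.2 _)
      (pow_le_pow_left₀ hb.1.le hb.2 _) (pow_nonneg hb.1.le _) (pow_nonneg hZ.le _))
      (pow_le_pow_left₀ hc.1.le hc.2 _) (pow_nonneg hc.1.le _)
      (mul_nonneg (pow_nonneg hZ.le _) (pow_nonneg hZ.le _))

/-- BNDK -/
theorem st_BNDK : ST_BNDK := by
  refine ⟨20000000 * MM ^ 6, ?_, ?_⟩
  · have h1 : (1 : ℤ) ≤ MM ^ 6 := one_le_pow₀ (by linarith [h72_MM_le])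
    linarith
  intro N hN t ht
  have hM := h72_MM_le
  obtain ⟨M, hMd⟩ : ∃ M, M = MM := ⟨_, rfl⟩
  have hN1 : (1 : ℤ) ≤ (N : ℤ) := by exact_mod_cast hN
  have hy : ∀ i, 0 < yy kb t i ∧ yy kb t i ≤ MM * N := by
    intro i
    have h1 : t i < N := Finset.mem_range.1 (Fintype.mem_piFinset.1 ht i)
    have h2 : ((t i : ℕ) : ℤ) ≤ N - 1 := by omega
    have h3 : (0 : ℤ) ≤ (t i : ℤ) := Int.natCast_nonneg _
    have h4 : 0 < kb i ∧ kb i ≤ 8 := by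
      fin_cases i <;> simp [kb]
    have h5 : 0 ≤ MM * (t i : ℤ) := mul_nonneg (by linarith) h3
    have h6 : MM * (t i : ℤ) ≤ MM * (N - 1) := mul_le_mul_of_nonneg_left h2 (by linarith)
    unfold yy
    constructor
    · linarith [h4.1]
    · have h7 : MM * ((N : ℤ) - 1) = MM * N - MM := by ring
      linarith [h4.2]
  rw [← hMd] at hy hM ⊢
  obtain ⟨Z, hZ⟩ : ∃ Z, Z = M * (N : ℤ) := ⟨_, rfl⟩
  rw [← hZ] at hy
  have y0 := hy 0
  have y1 := hy 1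
  have y2 := hy 2
  have hZ0 : 0 < Z := y0.1.trans_le y0.2
  have hM1 : 1 ≤ M := by linarith
  have hM6 : 1 ≤ M ^ 6 := one_le_pow₀ hM1
  refine ⟨fun i => ⟨(hy i).1, (hy i).2.trans ?_⟩, ?_, ?_⟩
  · rw [hZ]
    refine mul_le_mul_of_nonneg_right ?_ (by linarith)
    have : M ≤ M ^ 6 := le_self_pow₀ hM1 (by norm_num)
    linarith
  · have m (i j k : ℕ) := h72_mono y0 y1 y2 i j k
    have h400 := m 4 0 0
    have h220 := m 2 2 0
    have h202 := m 2 0 2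
    have h040 := m 0 4 0
    have h022 := m 0 2 2
    have h004 := m 0 0 4
    simp only [pow_zero, mul_one, Nat.reduceAdd, add_zero] at h400 h220 h202
    simp only [pow_zero, mul_one, one_mul, Nat.reduceAdd, add_zero, zero_add] at h040 h022 h004
    have hb : |kAy (yy kb t)| ≤ 20000000 * Z ^ 4 := by
      unfold kAy kA
      rw [abs_le]
      constructor <;> linarith [h400.1, h400.2, h220.1, h220.2, h202.1, h202.2, h040.1, h040.2,
        h022.1, h022.2, h004.1, h004.2, pow_pos hZ0 4]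
    refine hb.trans ?_
    have e : Z ^ 4 = M ^ 4 * (N : ℤ) ^ 4 := by rw [hZ, mul_pow]
    rw [e, ← mul_assoc]
    refine mul_le_mul_of_nonneg_right ?_ (by positivity)
    have : M ^ 4 ≤ M ^ 6 := pow_le_pow_right₀ hM1 (by norm_num)
    linarith
  · have m (i j k : ℕ) := h72_mono y0 y1 y2 i j k
    have h600 := m 6 0 0
    have h420 := m 4 2 0
    have h402 := m 4 0 2
    have h240 := m 2 4 0
    have h222 := m 2 2 2
    have h204 := m 2 0 4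
    have h060 := m 0 6 0
    have h042 := m 0 4 2
    have h024 := m 0 2 4
    have h006 := m 0 0 6
    simp only [pow_zero, mul_one, Nat.reduceAdd, add_zero] at h600 h420 h402
    simp only [pow_zero, mul_one, one_mul, Nat.reduceAdd, add_zero, zero_add] at h240 h222 h204
    simp only [pow_zero, mul_one, one_mul, Nat.reduceAdd, add_zero, zero_add] at h060 h042 h024
    simp only [pow_zero, mul_one, one_mul, Nat.reduceAdd, add_zero, zero_add] at h006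
    have hb : |kBy (yy kb t)| ≤ 20000000 * Z ^ 6 := by
      unfold kBy kB
      rw [abs_le]
      constructor <;> linarith [h600.1, h600.2, h420.1, h420.2, h402.1, h402.2, h240.1, h240.2,
        h222.1, h222.2, h204.1, h204.2, h060.1, h060.2, h042.1, h042.2, h024.1, h024.2,
        h006.1, h006.2, pow_pos hZ0 6]
    refine hb.trans (le_of_eq ?_)
    rw [hZ, mul_pow]
    ring

end Pool.Helper17.RS
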