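import Mathlib
import Pool.Agent.Helper17.RS.Sheet
import Pool.Agent.Helper15.HallDiv

/-! Row MULTK. -/

set_option autoImplicit false

namespace Pool.Helper17.RS

open Classical in
/-- MULTK -/
theorem st_MULTK (hDIVK : ST_DIVK) (hINJK : ST_INJK) (hCERTK : ST_CERTK) (hBNDK : ST_BNDK) :
    ST_MULTK := by
  intro ε hε
  obtain ⟨C, hC, hb⟩ := hBNDK
  obtain ⟨C1, hC1, hdiv⟩ := Pool.Agent.Helper15.Hall.card_divisors_le_uniform (ε / 12)
    (by positivity)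
  have hMM : MM ≠ 0 := by
    unfold MM
    exact_mod_cast Nat.factorial_ne_zero 1000
  have hCr : (1 : ℝ) ≤ (C : ℝ) := by exact_mod_cast hC
  refine ⟨C1 * ((31 * C ^ 3 : ℤ) : ℝ) ^ (ε / 12), ?_, ?_⟩
  · have h1 : (0 : ℝ) < ((31 * C ^ 3 : ℤ) : ℝ) := by
      push_cast
      positivity
    have h2 : 0 < C1 := by linarith
    positivity
  intro N hN p
  obtain ⟨S, hS⟩ : ∃ S, S = (Box N).filter (fun t => kAy (yy kb t) = p.1 ∧
    kBy (yy kb t) = p.2) := ⟨_, rfl⟩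
  rw [← hS]
  have hmem : ∀ t ∈ S, t ∈ Box N ∧ kAy (yy kb t) = p.1 ∧ kBy (yy kb t) = p.2 := by
    intro t ht
    rw [hS] at ht
    exact Finset.mem_filter.1 ht
  have hcong : ∀ t : Fin 3 → ℕ, Cong kb (yy kb t) := by
    intro t i
    refine ⟨(t i : ℤ), ?_⟩
    unfold yy
    ring
  rcases S.eq_empty_or_nonempty with h0 | ⟨t0, ht0⟩
  · rw [h0, Finset.card_empty, Nat.cast_zero]
    have h1 : (0 : ℝ) < ((31 * C ^ 3 : ℤ) : ℝ) := by
      push_cast
      positivity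
    have h2 : 0 < C1 := by linarith
    positivity
  obtain ⟨D, hD⟩ : ∃ D : ℤ, D = 4 * p.1 ^ 3 + 27 * p.2 ^ 2 := ⟨_, rfl⟩
  have m0 := hmem t0 ht0
  have b0 := (hb N hN t0 m0.1).2
  have hD0 : D ≠ 0 := by
    have h1 := (hCERTK (yy kb t0) (hcong t0)).1
    rw [m0.2.1, m0.2.2] at h1
    rw [hD]
    exact h1
  have hN1 : (1 : ℤ) ≤ (N : ℤ) := by exact_mod_cast hN
  have hDb : |D| ≤ 31 * C ^ 3 * (N : ℤ) ^ 12 := by
    rw [m0.2.1, m0.2.2] at b0
    have h1 : |4 * p.1 ^ 3| ≤ 4 * (C * (N : ℤ) ^ 4) ^ 3 := by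
      rw [abs_mul, abs_pow, abs_of_nonneg (by norm_num : (0 : ℤ) ≤ 4)]
      exact mul_le_mul_of_nonneg_left (pow_le_pow_left₀ (abs_nonneg _) b0.1 3) (by norm_num)
    have h2 : |27 * p.2 ^ 2| ≤ 27 * (C * (N : ℤ) ^ 6) ^ 2 := by
      rw [abs_mul, abs_pow, abs_of_nonneg (by norm_num : (0 : ℤ) ≤ 27)]
      exact mul_le_mul_of_nonneg_left (pow_le_pow_left₀ (abs_nonneg _) b0.2 2) (by norm_num)
    have h3 : (C * (N : ℤ) ^ 4) ^ 3 = C ^ 3 * (N : ℤ) ^ 12 := by ring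
    have h4 : (C * (N : ℤ) ^ 6) ^ 2 = C ^ 2 * (N : ℤ) ^ 12 := by ring
    have h5 : C ^ 2 * (N : ℤ) ^ 12 ≤ C ^ 3 * (N : ℤ) ^ 12 :=
      mul_le_mul_of_nonneg_right (pow_le_pow_right₀ hC (by norm_num)) (by positivity)
    rw [h3] at h1
    rw [h4] at h2
    rw [hD]
    refine (abs_add_le _ _).trans ?_
    linarith
  -- the third coordinate divides `D`
  have hcard : S.card ≤ D.natAbs.divisors.card := by
    refine Finset.card_le_card_of_injOn (fun t => (yy kb t 2).natAbs) ?_ ?_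
    · intro t ht
      have m := hmem t ht
      rw [Finset.mem_coe, Nat.mem_divisors]
      refine ⟨?_, Int.natAbs_ne_zero.2 hD0⟩
      have h1 := hDIVK (yy kb t 0) (yy kb t 1) (yy kb t 2)
      have e1 : kA (yy kb t 0) (yy kb t 1) (yy kb t 2) = p.1 := m.2.1
      have e2 : kB (yy kb t 0) (yy kb t 1) (yy kb t 2) = p.2 := m.2.2
      rw [e1, e2, ← hD] at h1
      exact Int.natAbs_dvd_natAbs.2 ((Dvd.intro_left _ (by ring :
        yy kb t 2 * yy kb t 2 = yy kb t 2 ^ 2)).trans h1)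
    · intro t ht t' ht' h
      have m := hmem t ht
      have m' := hmem t' ht'
      have q := (hb N hN t m.1).1
      have q' := (hb N hN t' m'.1).1
      have h2 : yy kb t 2 = yy kb t' 2 := by
        have h3 : (yy kb t 2).natAbs = (yy kb t' 2).natAbs := h
        have h4 := (q 2).1
        have h5 := (q' 2).1
        omega
      have h6 := hINJK _ _ (hcong t) (hcong t') (fun i => (q i).1) (fun i => (q' i).1) h2
        (m.2.1.trans m'.2.1.symm) (m.2.2.trans m'.2.2.symm)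
      funext i
      have h7 := congrFun h6 i
      unfold yy at h7
      have h8 : MM * (t i : ℤ) = MM * (t' i : ℤ) := by linarith
      exact_mod_cast mul_left_cancel₀ hMM h8
  obtain ⟨n, hn⟩ : ∃ n : ℕ, (n : ℤ) = 31 * C ^ 3 * (N : ℤ) ^ 12 :=
    ⟨(31 * C ^ 3 * (N : ℤ) ^ 12).toNat, Int.toNat_of_nonneg (by positivity)⟩
  have h1 : D.natAbs ≤ n := by
    have : ((D.natAbs : ℕ) : ℤ) ≤ (n : ℤ) := by
      rw [Int.natCast_natAbs, hn]
      exact hDb
    exact_mod_cast this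
  have h2 := hdiv n D.natAbs (Int.natAbs_ne_zero.2 hD0) h1
  have h3 : (n : ℝ) = ((31 * C ^ 3 : ℤ) : ℝ) * (N : ℝ) ^ 12 := by
    have h4 : ((n : ℤ) : ℝ) = ((31 * C ^ 3 * (N : ℤ) ^ 12 : ℤ) : ℝ) := by rw [hn]
    push_cast at h4 ⊢
    exact h4
  have h5 : (n : ℝ) ^ (ε / 12) = ((31 * C ^ 3 : ℤ) : ℝ) ^ (ε / 12) * (N : ℝ) ^ ε := by
    rw [h3, Real.mul_rpow (by push_cast; positivity) (by positivity)]
    congr 1
    rw [← Real.rpow_natCast, ← Real.rpow_mul (Nat.cast_nonneg _)]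
    congr 1
    push_cast
    ring
  rw [h5, ← mul_assoc] at h2
  exact (Nat.cast_le.2 hcard).trans h2

end Pool.Helper17.RS
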